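import Pool.Agent.helper25.QST.Defs

/-!
# Basic lemmas on `S_2[2,3,n]` and geometric points
-/

set_option autoImplicit false

namespace Pool.Agent.helper25.QST

open Submodule

variable {V : Type} [AddCommGroup V] [Module (ZMod 2) V]

theorem dbl (x : V) : x + x = 0 := ZModModule.add_self x

theorem z2 (c : ZMod 2) : c = 0 ∨ c = 1 := by
  fin_cases c
  · exact Or.inl rfl
  · exact Or.inr rfl

theorem z2_ne {c : ZMod 2} (h : c ≠ 0) : c = 1 := (z2 c).resolve_left h

theorem mem_sp {a x : V} : x ∈ span (ZMod 2) {a} ↔ x = 0 ∨ x = a := by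
  rw [mem_span_singleton]
  constructor
  · rintro ⟨c, rfl⟩
    rcases z2 c with rfl | rfl
    · exact Or.inl (zero_smul _ _)
    · exact Or.inr (one_smul _ _)
  · rintro (rfl | rfl)
    · exact ⟨0, zero_smul _ _⟩
    · exact ⟨1, one_smul _ _⟩

theorem add_ne {a b : V} (h : a ≠ b) : a + b ≠ 0 := by
  intro h0
  apply h
  have : a + b + b = b := by rw [h0, zero_add]
  rwa [add_assoc, dbl, add_zero] at this

/-- two different nonzero vectors are independent -/
theorem indep2 {a b : V} (ha : a ≠ 0) (hb : b ≠ 0) (hab : a ≠ b) :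
    LinearIndependent (ZMod 2) ![a, b] := by
  rw [LinearIndependent.pair_iff]
  intro s t h
  rcases z2 s with rfl | rfl <;> rcases z2 t with rfl | rfl
  · exact ⟨rfl, rfl⟩
  · rw [zero_smul, one_smul, zero_add] at h
    exact absurd h hb
  · rw [zero_smul, one_smul, add_zero] at h
    exact absurd h ha
  · rw [one_smul, one_smul] at h
    exact absurd h (add_ne hab)

theorem finrank2 {a b : V} (ha : a ≠ 0) (hb : b ≠ 0) (hab : a ≠ b) :
    Module.finrank (ZMod 2) (span (ZMod 2) {a, b}) = 2 := by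
  have e : ({a, b} : Set V) = Set.range ![a, b] := by
    rw [Matrix.range_cons, Matrix.range_cons, Matrix.range_empty, Set.union_empty,
      Set.singleton_union]
  rw [e, finrank_span_eq_card (indep2 ha hb hab), Fintype.card_fin]

variable {𝓑 : Set (Submodule (ZMod 2) V)}

/-- the block through two points -/
theorem blk (h : IsQSteiner 𝓑) {a b : V} (ha : a ≠ 0) (hb : b ≠ 0) (hab : a ≠ b) :
    ∃ B ∈ 𝓑, a ∈ B ∧ b ∈ B := by
  obtain ⟨B, ⟨hB, hL⟩, -⟩ := h.uniq _ (finrank2 ha hb hab)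
  exact ⟨B, hB, hL (subset_span (by simp)), hL (subset_span (by simp))⟩

/-- three independent vectors in a block span it -/
theorem three (h : IsQSteiner 𝓑) {B : Submodule (ZMod 2) V} (hB : B ∈ 𝓑) {a b c : V}
    (haB : a ∈ B) (hbB : b ∈ B) (hcB : c ∈ B) (ha : a ≠ 0) (hb : b ≠ 0) (hab : a ≠ b)
    (hc : c ≠ 0) (hca : c ≠ a) (hcb : c ≠ b) (hcab : c ≠ a + b)
    (g : V →ₗ[ZMod 2] ZMod 2) (hga : g a = 0) (hgb : g b = 0) (hgc : g c = 0) :
    ∀ x ∈ B, g x = 0 := by
  have hli : LinearIndependent (ZMod 2) ![a, b, c] := by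
    rw [Fintype.linearIndependent_iff]
    intro s hs
    simp only [Fin.sum_univ_three, Matrix.cons_val_zero, Matrix.cons_val_one,
      Matrix.cons_val_two, Matrix.head_cons, Matrix.tail_cons] at hs
    have h1 : a + b ≠ 0 := add_ne hab
    have h2 : a + c ≠ 0 := add_ne hca.symm
    have h3 : b + c ≠ 0 := add_ne hcb.symm
    have h4 : a + b + c ≠ 0 := add_ne hcab.symm
    rcases z2 (s 0) with e0 | e0 <;> rcases z2 (s 1) with e1 | e1 <;>
      rcases z2 (s 2) with e2 | e2 <;> rw [e0, e1, e2] at hs <;>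
      simp only [zero_smul, one_smul, zero_add, add_zero] at hs
    · intro i
      fin_cases i
      · exact e0
      · exact e1
      · exact e2
    · exact absurd hs hc
    · exact absurd hs hb
    · exact absurd hs h3
    · exact absurd hs ha
    · exact absurd hs h2
    · exact absurd hs h1
    · exact absurd hs h4
  have hr : Module.finrank (ZMod 2) (span (ZMod 2) (Set.range ![a, b, c])) = 3 := by
    have h5 := finrank_span_eq_card hli
    rwa [Fintype.card_fin] at h5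
  have : Module.Finite (ZMod 2) B := Module.finite_of_finrank_eq_succ (h.dim B hB)
  have hle : span (ZMod 2) (Set.range ![a, b, c]) ≤ B := by
    rw [span_le]
    rintro _ ⟨i, rfl⟩
    fin_cases i
    · exact haB
    · exact hbB
    · exact hcB
  have heq : span (ZMod 2) (Set.range ![a, b, c]) = B :=
    Submodule.eq_of_le_of_finrank_eq hle (by rw [hr, h.dim B hB])
  have hker : span (ZMod 2) (Set.range ![a, b, c]) ≤ LinearMap.ker g := by
    rw [span_le]
    rintro _ ⟨i, rfl⟩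
    fin_cases i
    · exact hga
    · exact hgb
    · exact hgc
  intro x hx
  rw [← heq] at hx
  exact hker hx

/-- the lift of the structure at a geometric point -/
theorem lift_geo {a : V} (h : Geometric 𝓑 a) : ∃ J : V →ₗ[ZMod 2] V,
    J a ∈ span (ZMod 2) {a} ∧ (∀ x, J (J x) + J x + x ∈ span (ZMod 2) {a}) ∧
    ∀ B ∈ 𝓑, a ∈ B → ∀ x ∈ B, J x ∈ B := by
  obtain ⟨J, h1, h2⟩ := h
  obtain ⟨K, hK⟩ := Module.projective_lifting_property (span (ZMod 2) {a}).mkQ
    (J.comp (span (ZMod 2) {a}).mkQ) (Submodule.mkQ_surjective _)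
  have hK' : ∀ x, (span (ZMod 2) {a}).mkQ (K x) = J ((span (ZMod 2) {a}).mkQ x) := fun x =>
    LinearMap.congr_fun hK x
  have h0 : ∀ x, (span (ZMod 2) {a}).mkQ x = 0 ↔ x ∈ span (ZMod 2) {a} := fun x => by
    rw [Submodule.mkQ_apply, Submodule.Quotient.mk_eq_zero]
  refine ⟨K, ?_, ?_, ?_⟩
  · rw [← h0, hK', (h0 a).2 (mem_span_singleton_self a), map_zero]
  · intro x
    rw [← h0, map_add, map_add, hK', hK']
    exact h1 _
  · intro B hB ha x hx
    have h3 : (span (ZMod 2) {a}).mkQ (K x) ∈ B.map (span (ZMod 2) {a}).mkQ := by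
      rw [hK']
      exact h2 B hB ha ⟨_, ⟨x, hx, rfl⟩, rfl⟩
    obtain ⟨y, hy, hxy⟩ := h3
    have h4 : K x - y ∈ span (ZMod 2) {a} := by
      rw [← h0, map_sub, hxy, sub_self]
    have h5 : span (ZMod 2) {a} ≤ B := by
      rw [span_le, Set.singleton_subset_iff]
      exact ha
    have h6 := B.add_mem (h5 h4) hy
    rwa [sub_add_cancel] at h6

/-- `J` has no eigenvector -/
theorem no_eig {a : V} {J : V →ₗ[ZMod 2] V} (h1 : J a ∈ span (ZMod 2) {a})
    (h2 : ∀ x, J (J x) + J x + x ∈ span (ZMod 2) {a}) {b : V} (hb : b ∉ span (ZMod 2) {a}) :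
    J b ∉ span (ZMod 2) {a} ∧ J b + b ∉ span (ZMod 2) {a} := by
  have hJ : ∀ s ∈ span (ZMod 2) {a}, J s ∈ span (ZMod 2) {a} := by
    intro s hs
    rcases mem_sp.1 hs with rfl | rfl
    · rw [map_zero]
      exact zero_mem _
    · exact h1
  constructor
  · intro h
    apply hb
    have h3 := add_mem (add_mem (h2 b) (hJ _ h)) h
    have h4 : J (J b) + J b + b + J (J b) + J b = b := by
      have e : J (J b) + J b + b + J (J b) + J b = (J (J b) + J (J b)) + (J b + J b) + b := by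
        abel
      rw [e, dbl, dbl, zero_add, zero_add]
    rwa [h4] at h3
  · intro h
    apply hb
    have h3 := add_mem (h2 b) (hJ _ h)
    rw [map_add] at h3
    have h4 : J (J b) + J b + b + (J (J b) + J b) = b := by
      have e : J (J b) + J b + b + (J (J b) + J b) = (J (J b) + J (J b)) + (J b + J b) + b := by
        abel
      rw [e, dbl, dbl, zero_add, zero_add]
    rwa [h4] at h3

open Classical in
/-- `1` if `a` and `b` are independent and the block through `a` and `b` is not contained in the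
kernel of `g`, otherwise `0` -/
noncomputable def ee (𝓑 : Set (Submodule (ZMod 2) V)) (g : V →ₗ[ZMod 2] ZMod 2) (a b : V) :
    ZMod 2 :=
  if a ≠ 0 ∧ b ≠ 0 ∧ a ≠ b ∧ ∃ B ∈ 𝓑, a ∈ B ∧ b ∈ B ∧ ∃ x ∈ B, g x ≠ 0 then 1 else 0

theorem ee_symm (g : V →ₗ[ZMod 2] ZMod 2) (a b : V) : ee 𝓑 g a b = ee 𝓑 g b a := by
  unfold ee
  have h : (a ≠ 0 ∧ b ≠ 0 ∧ a ≠ b ∧ ∃ B ∈ 𝓑, a ∈ B ∧ b ∈ B ∧ ∃ x ∈ B, g x ≠ 0) ↔
      (b ≠ 0 ∧ a ≠ 0 ∧ b ≠ a ∧ ∃ B ∈ 𝓑, b ∈ B ∧ a ∈ B ∧ ∃ x ∈ B, g x ≠ 0) := by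
    constructor
    · rintro ⟨h1, h2, h3, B, hB, h4, h5, h6⟩
      exact ⟨h2, h1, h3.symm, B, hB, h5, h4, h6⟩
    · rintro ⟨h1, h2, h3, B, hB, h4, h5, h6⟩
      exact ⟨h2, h1, h3.symm, B, hB, h5, h4, h6⟩
  by_cases hh : a ≠ 0 ∧ b ≠ 0 ∧ a ≠ b ∧ ∃ B ∈ 𝓑, a ∈ B ∧ b ∈ B ∧ ∃ x ∈ B, g x ≠ 0
  · rw [if_pos hh, if_pos (h.1 hh)]
  · rw [if_neg hh, if_neg (fun h' => hh (h.2 h'))]

/-- at a geometric point the function `ee` is linear -/
theorem ee_eq (h : IsQSteiner 𝓑) {g : V →ₗ[ZMod 2] ZMod 2} {a : V} (ha : a ≠ 0) (hga : g a = 0)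
    {J : V →ₗ[ZMod 2] V} (h1 : J a ∈ span (ZMod 2) {a})
    (h2 : ∀ x, J (J x) + J x + x ∈ span (ZMod 2) {a})
    (h3 : ∀ B ∈ 𝓑, a ∈ B → ∀ x ∈ B, J x ∈ B) {b : V} (hgb : g b = 0) :
    ee 𝓑 g a b = g (J b) := by
  have hJ0 : ∀ s ∈ span (ZMod 2) {a}, g s = 0 := by
    intro s hs
    rcases mem_sp.1 hs with rfl | rfl
    · exact map_zero g
    · exact hga
  unfold ee
  by_cases hb0 : b = 0
  · rw [if_neg (fun hh => hh.2.1 hb0), hb0, map_zero, map_zero]
  by_cases hab : a = b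
  · rw [if_neg (fun hh => hh.2.2.1 hab), ← hab, hJ0 _ h1]
  have hbs : b ∉ span (ZMod 2) {a} := by
    intro hb
    rcases mem_sp.1 hb with hb | hb
    · exact hb0 hb
    · exact hab hb.symm
  obtain ⟨n1, n2⟩ := no_eig h1 h2 hbs
  by_cases hg : g (J b) = 0
  · rw [hg, if_neg]
    rintro ⟨-, -, -, B, hB, haB, hbB, x, hx, hgx⟩
    apply hgx
    refine three h hB haB hbB (h3 B hB haB b hbB) ha hb0 hab ?_ ?_ ?_ ?_ g hga hgb hg x hx
    · intro e
      exact n1 (e ▸ zero_mem _)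
    · intro e
      exact n1 (e ▸ mem_span_singleton_self _)
    · intro e
      apply n2
      rw [e, dbl]
      exact zero_mem _
    · intro e
      apply n2
      rw [e, add_assoc, dbl, add_zero]
      exact mem_span_singleton_self _
  · obtain ⟨B, hB, haB, hbB⟩ := blk h ha hb0 hab
    rw [if_pos ⟨ha, hb0, hab, B, hB, haB, hbB, J b, h3 B hB haB b hbB, hg⟩, z2_ne hg]

end Pool.Agent.helper25.QST
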