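import Mathlib

/-!
# Definitions: binary `q`-Steiner systems `S_2[2,3,n]` and geometric derived spreads
-/

set_option autoImplicit false

namespace Pool.Agent.helper25.QST

/-- `𝓑` is a `q`-Steiner system `S_2[2,3,n]` (`V` is a vector space of dimension `n` over the field
with two elements): a set of 3-dimensional subspaces of `V` such that every 2-dimensional subspace
is contained in exactly one of them. -/
structure IsQSteiner {V : Type} [AddCommGroup V] [Module (ZMod 2) V]
    (𝓑 : Set (Submodule (ZMod 2) V)) : Prop where
  dim : ∀ B ∈ 𝓑, Module.finrank (ZMod 2) B = 3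
  uniq : ∀ L : Submodule (ZMod 2) V, Module.finrank (ZMod 2) L = 2 → ∃! B, B ∈ 𝓑 ∧ L ≤ B

/-- The derived spread of `𝓑` at the point `⟨a⟩` is geometric (Desarguesian): there is a linear map
`J` of `V/⟨a⟩` to itself with `J^2 + J + 1 = 0`, that is a structure of a vector space over the
field with four elements on `V/⟨a⟩`, such that for every block `B` through `a` the space `B/⟨a⟩` is
a subspace for this structure (so the `B/⟨a⟩` are its subspaces of dimension one). -/
def Geometric {V : Type} [AddCommGroup V] [Module (ZMod 2) V]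
    (𝓑 : Set (Submodule (ZMod 2) V)) (a : V) : Prop :=
  ∃ J : (V ⧸ Submodule.span (ZMod 2) {a}) →ₗ[ZMod 2] (V ⧸ Submodule.span (ZMod 2) {a}),
    (∀ x, J (J x) + J x + x = 0) ∧
    ∀ B ∈ 𝓑, a ∈ B →
      (B.map (Submodule.mkQ (Submodule.span (ZMod 2) {a}))).map J ≤
        B.map (Submodule.mkQ (Submodule.span (ZMod 2) {a}))

end Pool.Agent.helper25.QST
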