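import Pool.Agent.helper25.QST.Local

/-!
# The bound in one hyperplane, continued
-/

set_option autoImplicit false

namespace Pool.Agent.helper25.QST

open Submodule Module

variable {V : Type} [AddCommGroup V] [Module (ZMod 2) V]

theorem inter_dim [Finite V] (U : Submodule (ZMod 2) V) (g : V →ₗ[ZMod 2] ZMod 2) :
    finrank (ZMod 2) U ≤ finrank (ZMod 2) ↥(U ⊓ LinearMap.ker g) + 1 := by
  have h1 := LinearMap.finrank_range_add_finrank_ker (g.domRestrict U)
  have h2 : finrank (ZMod 2) (LinearMap.range (g.domRestrict U)) ≤ 1 := by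
    have h3 := Submodule.finrank_le (LinearMap.range (g.domRestrict U))
    rwa [Module.finrank_self] at h3
  have h4 : finrank (ZMod 2) (LinearMap.ker (g.domRestrict U)) =
      finrank (ZMod 2) ↥(U ⊓ LinearMap.ker g) := by
    rw [LinearMap.ker_domRestrict, ← Submodule.map_comap_subtype U (LinearMap.ker g),
      Submodule.finrank_map_subtype_eq]
  omega

variable {𝓑 : Set (Submodule (ZMod 2) V)}

open Classical in
/-- the nongeometric points of `U` in the kernel of `g` -/
noncomputable def NN [Fintype V] (𝓑 : Set (Submodule (ZMod 2) V)) (U : Submodule (ZMod 2) V)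
    (g : V →ₗ[ZMod 2] ZMod 2) : Finset V :=
  Finset.univ.filter fun p => (p ∈ U ∧ p ≠ 0 ∧ ¬ Geometric 𝓑 p) ∧ g p = 0

theorem jx_ne {z : V} {g : V →ₗ[ZMod 2] ZMod 2} {J : V →ₗ[ZMod 2] V} (hgz : g z = 1)
    (h1 : J z ∈ span (ZMod 2) {z}) (h2 : ∀ x, J (J x) + J x + x ∈ span (ZMod 2) {z})
    {x : V} (hx0 : x ≠ 0) (hgx : g x = 0) :
    J x + g (J x) • z ≠ 0 ∧ J x + g (J x) • z ≠ x := by
  have hxs : x ∉ span (ZMod 2) {z} := by
    intro h
    rcases mem_sp.1 h with h | h
    · exact hx0 h
    · rw [h, hgz] at hgx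
      exact one_ne_zero hgx
  obtain ⟨n1, n2⟩ := no_eig h1 h2 hxs
  have hz : ∀ c : ZMod 2, c • z ∈ span (ZMod 2) {z} := fun c =>
    Submodule.smul_mem _ c (mem_span_singleton_self z)
  constructor
  · intro h
    apply n1
    have : J x = g (J x) • z := by
      have h3 : J x + g (J x) • z + g (J x) • z = g (J x) • z := by rw [h, zero_add]
      rwa [add_assoc, dbl, add_zero] at h3
    rw [this]
    exact hz _
  · intro h
    apply n2
    have : J x + x = g (J x) • z := by
      have h3 : J x + (J x + g (J x) • z) = J x + x := by rw [h]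
      rw [← add_assoc, dbl, zero_add] at h3
      exact h3.symm
    rw [this]
    exact hz _

theorem ee_one (h : IsQSteiner 𝓑) {z : V} {g : V →ₗ[ZMod 2] ZMod 2} {J : V →ₗ[ZMod 2] V}
    (hz0 : z ≠ 0) (hgz : g z = 1) (h1 : J z ∈ span (ZMod 2) {z})
    (h2 : ∀ x, J (J x) + J x + x ∈ span (ZMod 2) {z})
    (h3 : ∀ B ∈ 𝓑, z ∈ B → ∀ x ∈ B, J x ∈ B) {x : V} (hx0 : x ≠ 0) (hgx : g x = 0) :
    ee 𝓑 g x (J x + g (J x) • z) = 1 := by
  obtain ⟨n1, n2⟩ := jx_ne hgz h1 h2 hx0 hgx
  have hzx : z ≠ x := by
    rintro rfl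
    rw [hgz] at hgx
    exact one_ne_zero hgx
  obtain ⟨B, hB, hzB, hxB⟩ := blk h hz0 hx0 hzx
  unfold ee
  rw [if_pos]
  refine ⟨hx0, n1, n2.symm, B, hB, hxB, B.add_mem (h3 B hB hzB x hxB) (B.smul_mem _ hzB), z,
    hzB, ?_⟩
  rw [hgz]
  exact one_ne_zero

open Classical in
theorem local_bound [Fintype V] (h : IsQSteiner 𝓑) (U : Submodule (ZMod 2) V) {z : V}
    (hzU : z ∈ U) (hz0 : z ≠ 0) (hz : Geometric 𝓑 z) (g : V →ₗ[ZMod 2] ZMod 2)
    (hgz : g z = 1) :
    2 ^ (2 * finrank (ZMod 2) U - finrank (ZMod 2) V - 2) ≤ 2 * ((NN 𝓑 U g).card + 1) := by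
  have hdim := inter_dim U g
  have hUV : finrank (ZMod 2) U ≤ finrank (ZMod 2) V := Submodule.finrank_le U
  obtain ⟨J, h1, h2, h3⟩ := lift_geo hz
  set W : Submodule (ZMod 2) V := U ⊓ LinearMap.ker g with hW
  have hWg : W ≤ LinearMap.ker g := inf_le_right
  have hWU : W ≤ U := inf_le_left
  by_cases hs : ⊤ ≤ span (ZMod 2) {a : W | (a : V) ≠ 0 ∧ Geometric 𝓑 (a : V)}
  · -- the geometric points span
    obtain ⟨E, hE⟩ := form h g W hWg hs
    let T : W →ₗ[ZMod 2] V ⧸ U := U.mkQ.comp (J.comp W.subtype)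
    let K : Submodule (ZMod 2) W := LinearMap.ker T
    have hK : finrank (ZMod 2) W ≤ finrank (ZMod 2) K +
        (finrank (ZMod 2) V - finrank (ZMod 2) U) := by
      have e1 := LinearMap.finrank_range_add_finrank_ker T
      have e2 := Submodule.finrank_le (LinearMap.range T)
      have e3 := Submodule.finrank_quotient_add_finrank U
      have e4 : finrank (ZMod 2) K = finrank (ZMod 2) (LinearMap.ker T) := rfl
      omega
    let jm : K →ₗ[ZMod 2] V :=
      (J + (g.comp J).smulRight z).comp (W.subtype.comp K.subtype)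
    have hjm : ∀ x : K, jm x = J (x : W) + g (J (x : W)) • z := fun x => rfl
    have hjW : ∀ x : K, jm x ∈ W := by
      intro x
      rw [hjm]
      have hxK : T (x : W) = 0 := x.2
      have hxU : J ((x : W) : V) ∈ U := by
        have : U.mkQ (J ((x : W) : V)) = 0 := hxK
        rwa [Submodule.mkQ_apply, Submodule.Quotient.mk_eq_zero] at this
      refine ⟨U.add_mem hxU (U.smul_mem _ hzU), ?_⟩
      rw [SetLike.mem_coe, LinearMap.mem_ker, map_add, map_smul, hgz, smul_eq_mul, mul_one, dbl]
    let jW : K →ₗ[ZMod 2] W := jm.codRestrict W hjW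
    have hjWc : ∀ x : K, ((jW x : W) : V) = J (x : W) + g (J (x : W)) • z := fun x => rfl
    let β : K →ₗ[ZMod 2] K →ₗ[ZMod 2] ZMod 2 := E.compl₁₂ K.subtype jW
    have hβ : ∀ x : K, ((x : W) : V) ≠ 0 → Geometric 𝓑 ((x : W) : V) → β x x = 1 := by
      intro x hx0 hx
      have e1 : β x x = E (x : W) (jW x) := rfl
      rw [e1, hE _ _ hx0 hx, hjWc]
      exact ee_one h hz0 hgz h1 h2 h3 hx0 (hWg (x : W).2)
    let N : Finset K := Finset.univ.filter fun x =>
      ((x : W) : V) = 0 ∨ ¬ Geometric 𝓑 ((x : W) : V)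
    have hN : ∀ x : K, x ∉ N → β x x = 1 := by
      intro x hx
      have hx' : ¬ (((x : W) : V) = 0 ∨ ¬ Geometric 𝓑 ((x : W) : V)) := by
        intro hc
        exact hx (Finset.mem_filter.2 ⟨Finset.mem_univ _, hc⟩)
      rw [not_or, not_not] at hx'
      exact hβ x hx'.1 hx'.2
    have hcard : Fintype.card K ≤ 4 * N.card := by
      by_contra hc
      obtain ⟨x, y, w, a1, a2, a3, a4, a5, a6, a7⟩ := greedy N (not_le.1 hc)
      exact quad β x y w (hN _ a1) (hN _ a2) (hN _ a3) (hN _ a4) (hN _ a5) (hN _ a6) (hN _ a7)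
    have hNN : N.card ≤ (NN 𝓑 U g).card + 1 := by
      have e1 : (N.image fun x : K => ((x : W) : V)) ⊆ insert 0 (NN 𝓑 U g) := by
        intro p hp
        obtain ⟨x, hx, rfl⟩ := Finset.mem_image.1 hp
        obtain ⟨-, hx⟩ := Finset.mem_filter.1 hx
        by_cases hx0 : ((x : W) : V) = 0
        · rw [hx0]
          exact Finset.mem_insert_self _ _
        · apply Finset.mem_insert_of_mem
          refine Finset.mem_filter.2 ⟨Finset.mem_univ _, ⟨hWU (x : W).2, hx0, ?_⟩, hWg (x : W).2⟩
          exact hx.resolve_left hx0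
      have e2 : (N.image fun x : K => ((x : W) : V)).card = N.card := by
        apply Finset.card_image_of_injective
        intro x y hxy
        exact Subtype.ext (Subtype.ext hxy)
      calc N.card = (N.image fun x : K => ((x : W) : V)).card := e2.symm
        _ ≤ (insert 0 (NN 𝓑 U g)).card := Finset.card_le_card e1
        _ ≤ (NN 𝓑 U g).card + 1 := Finset.card_insert_le _ _
    have hcK : Fintype.card K = 2 ^ finrank (ZMod 2) K := by
      rw [Module.card_eq_pow_finrank (K := ZMod 2) (V := K), ZMod.card]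
    have hfin : 2 ^ (finrank (ZMod 2) K) ≤ 4 * ((NN 𝓑 U g).card + 1) := by
      rw [← hcK]
      exact hcard.trans (Nat.mul_le_mul_left 4 hNN)
    have hexp : 2 * finrank (ZMod 2) U - finrank (ZMod 2) V - 2 + 1 ≤ finrank (ZMod 2) K ∨
        2 * finrank (ZMod 2) U - finrank (ZMod 2) V - 2 = 0 := by omega
    rcases hexp with he | he
    · have e5 : 2 ^ (2 * finrank (ZMod 2) U - finrank (ZMod 2) V - 2 + 1) ≤
          2 ^ (finrank (ZMod 2) K) := Nat.pow_le_pow_right (by norm_num) he
      rw [pow_succ] at e5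
      omega
    · rw [he]
      omega
  · -- the geometric points do not span
    set S : Submodule (ZMod 2) W :=
      span (ZMod 2) {a : W | (a : V) ≠ 0 ∧ Geometric 𝓑 (a : V)} with hS
    have hlt : finrank (ZMod 2) S < finrank (ZMod 2) W := by
      apply Submodule.finrank_lt
      intro he
      exact hs (he ▸ le_rfl)
    have hcS : Fintype.card S = 2 ^ finrank (ZMod 2) S := by
      rw [Module.card_eq_pow_finrank (K := ZMod 2) (V := S), ZMod.card]
    have hcW : Fintype.card W = 2 ^ finrank (ZMod 2) W := by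
      rw [Module.card_eq_pow_finrank (K := ZMod 2) (V := W), ZMod.card]
    have hsub : Fintype.card W ≤ Fintype.card S + (NN 𝓑 U g).card := by
      have e1 : (Finset.univ.image fun x : W => (x : V)) ⊆
          (Finset.univ.image fun x : S => ((x : W) : V)) ∪ NN 𝓑 U g := by
        intro p hp
        obtain ⟨x, -, rfl⟩ := Finset.mem_image.1 hp
        by_cases hx : x ∈ S
        · exact Finset.mem_union_left _ (Finset.mem_image.2 ⟨⟨x, hx⟩, Finset.mem_univ _, rfl⟩)
        · apply Finset.mem_union_right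
          have hx0 : (x : V) ≠ 0 := by
            intro h0
            apply hx
            have : x = 0 := Subtype.ext h0
            rw [this]
            exact zero_mem _
          refine Finset.mem_filter.2 ⟨Finset.mem_univ _, ⟨hWU x.2, hx0, ?_⟩, hWg x.2⟩
          intro hg
          exact hx (subset_span ⟨hx0, hg⟩)
      have e2 : (Finset.univ.image fun x : W => (x : V)).card = Fintype.card W := by
        rw [Finset.card_image_of_injective _ Subtype.val_injective, Finset.card_univ]
      have e3 : (Finset.univ.image fun x : S => ((x : W) : V)).card ≤ Fintype.card S :=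
        Finset.card_image_le
      have e4 := Finset.card_le_card e1
      have e5 := Finset.card_union_le (Finset.univ.image fun x : S => ((x : W) : V)) (NN 𝓑 U g)
      omega
    have h2S : 2 * 2 ^ finrank (ZMod 2) S ≤ 2 ^ finrank (ZMod 2) W := by
      rw [← pow_succ']
      exact Nat.pow_le_pow_right (by norm_num) hlt
    have hexp : 2 ^ (2 * finrank (ZMod 2) U - finrank (ZMod 2) V - 2) ≤
        2 ^ finrank (ZMod 2) W := Nat.pow_le_pow_right (by norm_num) (by omega)
    rw [hcS, hcW] at hsub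
    omega

end Pool.Agent.helper25.QST
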