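import Pool.Agent.helper25.QST.Basic

/-!
# The bound in one hyperplane
-/

set_option autoImplicit false

namespace Pool.Agent.helper25.QST

open Submodule

/-- greedy choice of three vectors all of whose nonzero combinations avoid a small set -/
theorem greedy {K : Type} [AddCommGroup K] [Fintype K] [DecidableEq K] (N : Finset K)
    (hN : 4 * N.card < Fintype.card K) : ∃ x y z : K, x ∉ N ∧ y ∉ N ∧ z ∉ N ∧ x + y ∉ N ∧
      x + z ∉ N ∧ y + z ∉ N ∧ x + y + z ∉ N := by
  have ex : ∀ M : Finset K, M.card < Fintype.card K → ∃ x, x ∉ M := by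
    intro M hM
    by_contra hc
    push Not at hc
    have : M = Finset.univ := Finset.eq_univ_iff_forall.2 hc
    rw [this, Finset.card_univ] at hM
    exact lt_irrefl _ hM
  have im : ∀ c : K, (N.image fun p => p - c).card ≤ N.card := fun c => Finset.card_image_le
  have nm : ∀ c s : K, s ∉ N.image (fun p => p - c) → c + s ∉ N := by
    intro c s hs hc
    exact hs (Finset.mem_image.2 ⟨c + s, hc, by abel⟩)
  obtain ⟨x, hx⟩ := ex N (by omega)
  obtain ⟨y, hy⟩ := ex (N ∪ N.image fun p => p - x) (by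
    have h1 := Finset.card_union_le N (N.image fun p => p - x)
    have h2 := im x
    omega)
  rw [Finset.mem_union, not_or] at hy
  obtain ⟨z, hz⟩ := ex (((N ∪ N.image fun p => p - x) ∪ N.image fun p => p - y) ∪
      N.image fun p => p - (x + y)) (by
    have h1 := Finset.card_union_le N (N.image fun p => p - x)
    have h2 := Finset.card_union_le (N ∪ N.image fun p => p - x) (N.image fun p => p - y)
    have h3 := Finset.card_union_le ((N ∪ N.image fun p => p - x) ∪ N.image fun p => p - y)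
      (N.image fun p => p - (x + y))
    have h4 := im x
    have h5 := im y
    have h6 := im (x + y)
    omega)
  rw [Finset.mem_union, not_or, Finset.mem_union, not_or, Finset.mem_union, not_or] at hz
  exact ⟨x, y, z, hx, hy.1, hz.1.1.1, nm x y hy.2, nm x z hz.1.1.2, nm y z hz.1.2,
    nm (x + y) z hz.2⟩

/-- a quadratic form over the field with two elements takes the value `0` at a nonzero combination
of three vectors -/
theorem quad {K : Type} [AddCommGroup K] [Module (ZMod 2) K]
    (β : K →ₗ[ZMod 2] K →ₗ[ZMod 2] ZMod 2) (x y z : K) (h1 : β x x = 1) (h2 : β y y = 1)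
    (h3 : β z z = 1) (h4 : β (x + y) (x + y) = 1) (h5 : β (x + z) (x + z) = 1)
    (h6 : β (y + z) (y + z) = 1) (h7 : β (x + y + z) (x + y + z) = 1) : False := by
  simp only [map_add, LinearMap.add_apply] at h4 h5 h6 h7
  rw [h1, h2] at h4
  rw [h1, h3] at h5
  rw [h2, h3] at h6
  rw [h1, h2, h3] at h7
  have key : ∀ a b c d e f : ZMod 2, 1 + b + (a + 1) = 1 → 1 + d + (c + 1) = 1 →
      1 + f + (e + 1) = 1 → 1 + b + d + (a + 1 + f) + (c + e + 1) = 1 → False := by decide
  exact key (β x y) (β y x) (β x z) (β z x) (β y z) (β z y) h4 h5 h6 h7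

variable {V : Type} [AddCommGroup V] [Module (ZMod 2) V]
  {𝓑 : Set (Submodule (ZMod 2) V)}

/-- The bilinear form on a space which is spanned by geometric points. -/
theorem form (h : IsQSteiner 𝓑) (g : V →ₗ[ZMod 2] ZMod 2) (W : Submodule (ZMod 2) V)
    (hW : W ≤ LinearMap.ker g)
    (hs : ⊤ ≤ span (ZMod 2) {a : W | (a : V) ≠ 0 ∧ Geometric 𝓑 (a : V)}) :
    ∃ E : W →ₗ[ZMod 2] W →ₗ[ZMod 2] ZMod 2, ∀ a x : W, (a : V) ≠ 0 → Geometric 𝓑 (a : V) →
      E a x = ee 𝓑 g a x := by
  classical
  have hφ : ∀ a : W, ∃ φ : V →ₗ[ZMod 2] ZMod 2, (a : V) ≠ 0 → Geometric 𝓑 (a : V) →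
      ∀ x : W, ee 𝓑 g a x = φ x := by
    intro a
    by_cases ha : (a : V) ≠ 0 ∧ Geometric 𝓑 (a : V)
    · obtain ⟨J, h1, h2, h3⟩ := lift_geo ha.2
      exact ⟨g.comp J, fun _ _ x => ee_eq h ha.1 (hW a.2) h1 h2 h3 (hW x.2)⟩
    · exact ⟨0, fun h1 h2 => absurd ⟨h1, h2⟩ ha⟩
  choose φ hφ using hφ
  let b := Module.Basis.ofSpan hs
  have hb : ∀ i, (b i : V) ≠ 0 ∧ Geometric 𝓑 (b i : V) := fun i =>
    Module.Basis.ofSpan_subset hs (Set.mem_range_self i)
  refine ⟨b.constr (ZMod 2) fun i => (φ (b i)).comp W.subtype, ?_⟩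
  intro a x ha0 ha
  rw [hφ a ha0 ha x]
  have key : (b.constr (ZMod 2) (fun i => (φ (b i)).comp W.subtype)) a =
      (φ a).comp W.subtype := by
    apply b.ext
    intro j
    have e1 : ∀ i, (φ (b i)) (b j : V) = (φ (b j)) (b i : V) := by
      intro i
      rw [← hφ (b i) (hb i).1 (hb i).2 (b j), ← hφ (b j) (hb j).1 (hb j).2 (b i), ee_symm]
    have e2 : (φ a) (b j : V) = (φ (b j)) (a : V) := by
      rw [← hφ a ha0 ha (b j), ← hφ (b j) (hb j).1 (hb j).2 a, ee_symm]
    have e3 : (b.constr (ZMod 2) (fun i => (φ (b i)).comp W.subtype)) a (b j) =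
        (φ (b j)) (a : V) := by
      have e4 : ∀ c : W, (b.constr (ZMod 2) (fun i => (φ (b i)).comp W.subtype)) c (b j) =
          ((φ (b j)).comp W.subtype) c := by
        intro c
        have e5 : (LinearMap.applyₗ (R := ZMod 2) (b j)).comp
            (b.constr (ZMod 2) (fun i => (φ (b i)).comp W.subtype)) =
            (φ (b j)).comp W.subtype := by
          apply b.ext
          intro i
          rw [LinearMap.comp_apply, Module.Basis.constr_basis]
          exact e1 i
        exact LinearMap.congr_fun e5 c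
      exact e4 a
    rw [e3, LinearMap.comp_apply]
    exact e2.symm
  rw [key]
  rfl

end Pool.Agent.helper25.QST
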