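import Pool.Agent.helper25.QST.Hyper

/-!
# The theorem: averaging over the hyperplanes
-/

set_option autoImplicit false

namespace Pool.Agent.helper25.QST

open Submodule Module

variable {V : Type} [AddCommGroup V] [Module (ZMod 2) V] {𝓑 : Set (Submodule (ZMod 2) V)}

open Classical in
/-- half of the functionals with `g z = 1` vanish at `p` -/
theorem half [Fintype (V →ₗ[ZMod 2] ZMod 2)] {z p : V} (hp0 : p ≠ 0) (hpz : p ≠ z) :
    2 * (((Finset.univ : Finset (V →ₗ[ZMod 2] ZMod 2)).filter fun g => g z = 1).filter
      fun g => g p = 0).card =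
    ((Finset.univ : Finset (V →ₗ[ZMod 2] ZMod 2)).filter fun g => g z = 1).card := by
  obtain ⟨l, hl, hlz⟩ := Submodule.exists_le_ker_of_notMem (K := ZMod 2)
    (p := span (ZMod 2) {z}) (v := p) (by
      intro h
      rcases mem_sp.1 h with h | h
      · exact hp0 h
      · exact hpz h)
  have hlz0 : l z = 0 := hlz (mem_span_singleton_self z)
  have hlp : l p = 1 := z2_ne hl
  set F := (Finset.univ : Finset (V →ₗ[ZMod 2] ZMod 2)).filter fun g => g z = 1 with hF
  have h1 := Finset.card_filter_add_card_filter_not (s := F) (fun g => g p = 0)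
  have h2 : (F.filter fun g => g p = 0).card = (F.filter fun g => ¬ g p = 0).card := by
    apply Finset.card_nbij' (fun g => g + l) (fun g => g + l)
    · intro g hg
      simp only [Finset.mem_coe, Finset.mem_filter, hF, Finset.mem_univ, true_and] at hg ⊢
      rw [LinearMap.add_apply, LinearMap.add_apply, hlz0, hlp, hg.1, hg.2]
      exact ⟨add_zero _, by decide⟩
    · intro g hg
      simp only [Finset.mem_coe, Finset.mem_filter, hF, Finset.mem_univ, true_and] at hg ⊢
      rw [LinearMap.add_apply, LinearMap.add_apply, hlz0, hlp, hg.1, z2_ne hg.2]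
      exact ⟨add_zero _, by decide⟩
    · intro g _
      simp only
      rw [add_assoc, show l + l = 0 from ZModModule.add_self l, add_zero]
    · intro g _
      simp only
      rw [add_assoc, show l + l = 0 from ZModModule.add_self l, add_zero]
  omega

open Classical in
theorem main [Fintype V] (h : IsQSteiner 𝓑) (U : Submodule (ZMod 2) V) :
    2 ^ (2 * finrank (ZMod 2) U - finrank (ZMod 2) V - 2) ≤
      (Finset.univ.filter fun p : V => p ∈ U ∧ p ≠ 0 ∧ ¬ Geometric 𝓑 p).card + 2 := by
  set N := Finset.univ.filter fun p : V => p ∈ U ∧ p ≠ 0 ∧ ¬ Geometric 𝓑 p with hN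
  by_cases hex : ∃ z ∈ U, z ≠ 0 ∧ Geometric 𝓑 z
  · obtain ⟨z, hzU, hz0, hz⟩ := hex
    have : Finite (V →ₗ[ZMod 2] ZMod 2) := DFunLike.finite _
    let _ : Fintype (V →ₗ[ZMod 2] ZMod 2) := Fintype.ofFinite _
    set F := (Finset.univ : Finset (V →ₗ[ZMod 2] ZMod 2)).filter fun g => g z = 1 with hF
    have hFne : 0 < F.card := by
      rw [Finset.card_pos]
      by_contra hc
      rw [Finset.not_nonempty_iff_eq_empty] at hc
      apply hz0
      rw [← Module.forall_dual_apply_eq_zero_iff (ZMod 2)]
      intro φ
      by_contra hφ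
      have : φ ∈ F := Finset.mem_filter.2 ⟨Finset.mem_univ _, z2_ne hφ⟩
      rw [hc] at this
      exact Finset.notMem_empty _ this
    have hNN : ∀ g, NN 𝓑 U g = N.filter fun p => g p = 0 := by
      intro g
      rw [hN, Finset.filter_filter]
      rfl
    have hdc : ∑ g ∈ F, (N.filter fun p => g p = 0).card =
        ∑ p ∈ N, (F.filter fun g => g p = 0).card := by
      have := Finset.sum_card_bipartiteAbove_eq_sum_card_bipartiteBelow
        (s := F) (t := N) (r := fun g p => g p = 0)
      exact this
    have hhalf : ∀ p ∈ N, 2 * (F.filter fun g => g p = 0).card = F.card := by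
      intro p hp
      obtain ⟨-, hpU, hp0, hp⟩ := Finset.mem_filter.1 hp
      apply half hp0
      rintro rfl
      exact hp hz
    have h1 : ∑ g ∈ F, 2 * (N.filter fun p => g p = 0).card = N.card * F.card := by
      rw [← Finset.mul_sum, hdc, Finset.mul_sum, Finset.sum_congr rfl hhalf, Finset.sum_const,
        smul_eq_mul]
    have h2 : F.card * 2 ^ (2 * finrank (ZMod 2) U - finrank (ZMod 2) V - 2) ≤
        ∑ g ∈ F, (2 * (N.filter fun p => g p = 0).card + 2) := by
      rw [← smul_eq_mul, ← Finset.sum_const]
      refine Finset.sum_le_sum fun g hg => ?_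
      have h3 := local_bound h U hzU hz0 hz g (Finset.mem_filter.1 hg).2
      rw [hNN] at h3
      omega
    rw [Finset.sum_add_distrib, h1, Finset.sum_const, smul_eq_mul] at h2
    have h4 : F.card * 2 ^ (2 * finrank (ZMod 2) U - finrank (ZMod 2) V - 2) ≤
        F.card * (N.card + 2) := by
      calc F.card * 2 ^ (2 * finrank (ZMod 2) U - finrank (ZMod 2) V - 2)
          ≤ N.card * F.card + F.card * 2 := h2
        _ = F.card * (N.card + 2) := by ring
    exact Nat.le_of_mul_le_mul_left h4 hFne
  · push Not at hex
    have hUV : finrank (ZMod 2) U ≤ finrank (ZMod 2) V := Submodule.finrank_le U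
    have hcU : Fintype.card U = 2 ^ finrank (ZMod 2) U := by
      rw [Module.card_eq_pow_finrank (K := ZMod 2) (V := U), ZMod.card]
    have e1 : (Finset.univ.image fun x : U => (x : V)) ⊆ insert 0 N := by
      intro p hp
      obtain ⟨x, -, rfl⟩ := Finset.mem_image.1 hp
      by_cases hx0 : (x : V) = 0
      · rw [hx0]
        exact Finset.mem_insert_self _ _
      · exact Finset.mem_insert_of_mem
          (Finset.mem_filter.2 ⟨Finset.mem_univ _, x.2, hx0, hex x x.2 hx0⟩)
    have e2 : (Finset.univ.image fun x : U => (x : V)).card = Fintype.card U := by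
      rw [Finset.card_image_of_injective _ Subtype.val_injective, Finset.card_univ]
    have e3 := Finset.card_le_card e1
    have e4 := Finset.card_insert_le (0 : V) N
    have e5 : 2 ^ (2 * finrank (ZMod 2) U - finrank (ZMod 2) V - 2) ≤
        2 ^ finrank (ZMod 2) U := Nat.pow_le_pow_right (by norm_num) (by omega)
    omega

end Pool.Agent.helper25.QST
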