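import Pool.Agent.helper25.QST.Main

/-!
# Automorphisms carry geometric points to geometric points
-/

set_option autoImplicit false

namespace Pool.Agent.helper25.QST

open Submodule Module

variable {V : Type} [AddCommGroup V] [Module (ZMod 2) V] {𝓑 : Set (Submodule (ZMod 2) V)}

theorem geo_map (φ : V ≃ₗ[ZMod 2] V)
    (hφ : ∀ B ∈ 𝓑, B.map (φ.symm : V →ₗ[ZMod 2] V) ∈ 𝓑) {a : V} (h : Geometric 𝓑 a) :
    Geometric 𝓑 (φ a) := by
  obtain ⟨J, h1, h2⟩ := h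
  have hsp : (span (ZMod 2) {a}).map (φ : V →ₗ[ZMod 2] V) = span (ZMod 2) {φ a} := by
    rw [Submodule.map_span, Set.image_singleton]
    rfl
  let e : (V ⧸ span (ZMod 2) {a}) ≃ₗ[ZMod 2] (V ⧸ span (ZMod 2) {φ a}) :=
    Submodule.Quotient.equiv _ _ φ hsp
  have he : ∀ x : V, e ((span (ZMod 2) {a}).mkQ x) = (span (ZMod 2) {φ a}).mkQ (φ x) :=
    fun x => rfl
  have hes : ∀ x : V, e.symm ((span (ZMod 2) {φ a}).mkQ x) =
      (span (ZMod 2) {a}).mkQ (φ.symm x) := by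
    intro x
    rw [LinearEquiv.symm_apply_eq, he, LinearEquiv.apply_symm_apply]
  refine ⟨(e : _ →ₗ[ZMod 2] _).comp (J.comp (e.symm : _ →ₗ[ZMod 2] _)), ?_, ?_⟩
  · intro x
    have e1 : ∀ y, ((e : _ →ₗ[ZMod 2] _).comp (J.comp (e.symm : _ →ₗ[ZMod 2] _))) y =
        e (J (e.symm y)) := fun y => rfl
    rw [e1, e1, LinearEquiv.symm_apply_apply]
    have e2 : e (J (J (e.symm x))) + e (J (e.symm x)) + x =
        e (J (J (e.symm x)) + J (e.symm x) + e.symm x) := by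
      rw [map_add, map_add, LinearEquiv.apply_symm_apply]
    rw [e2, h1, map_zero]
  · intro B hB haB
    rintro _ ⟨_, ⟨x, hx, rfl⟩, rfl⟩
    have e1 : ((e : _ →ₗ[ZMod 2] _).comp (J.comp (e.symm : _ →ₗ[ZMod 2] _)))
        ((span (ZMod 2) {φ a}).mkQ x) = e (J ((span (ZMod 2) {a}).mkQ (φ.symm x))) := by
      rw [← hes]
      rfl
    rw [e1]
    have haB' : a ∈ B.map (φ.symm : V →ₗ[ZMod 2] V) := ⟨φ a, haB, φ.symm_apply_apply a⟩
    obtain ⟨y, hy, hxy⟩ := h2 _ (hφ B hB) haB'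
      ⟨_, ⟨φ.symm x, ⟨x, hx, rfl⟩, rfl⟩, rfl⟩
    obtain ⟨w, hw, hwy⟩ := hy
    refine ⟨w, hw, ?_⟩
    have e2 : φ y = w := by
      rw [← hwy]
      exact φ.apply_symm_apply w
    rw [← hxy, he, e2]

end Pool.Agent.helper25.QST
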